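import Pool.Agent.Helper52_ABA.LStmts

/-!
# Squad ABL, module ADD: pushing a letter through a triangle (MP_d857f1_al)
-/

set_option autoImplicit false

namespace Pool.Agent.ABA.B.H63

open Pool.Agent.ABA.B Pool.Agent.ABA.B.TG

variable {V E : Type} {S : TG V E}

/-- a bridge -/
theorem bridge (e : E) : S.D (S.src e) [e, S.inv e] 0 := by
  have := D.br (S := S) (e := e) (D.nil (S.tgt e)) (D.nil (S.src e))
  simpa using this

theorem add_first (hins : InsStmt) {x : V} {e e' e'' : E} {β : List E} {n : ℕ}
    (h : S.D x (e :: β) n) (ht : S.Tri e e' e'') : S.D x (e' :: e'' :: β) (n + 1) := by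
  have hx : x = S.src e := h.src_eq
  subst hx
  have hb : S.D (S.tgt e) [S.inv e'', e''] 0 := by
    have := bridge (S := S) (S.inv e'')
    rw [S.inv_inv, src_inv, Tri.tgt' ht] at this
    exact this
  have h1 := hins V E S (S.src e) (S.tgt e) [e] β [S.inv e'', e''] n 0 h ⟨rfl, rfl⟩ hb
  have h2 := D.tri (S.tri_swap ht) (a := e'' :: β) (n := n) (by
    rw [Tri.src' ht]
    simpa using h1)
  rwa [Tri.src' ht] at h2

theorem add_aux (hins : InsStmt) {x : V} {w : List E} {n : ℕ} (h : S.D x w n) :
    ∀ (α β : List E) (e e' e'' : E), w = α ++ e :: β → S.Tri e e' e'' →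
      S.D x (α ++ e' :: e'' :: β) (n + 1) := by
  induction h with
  | nil x =>
    intro α β e e' e'' hw _
    simp at hw
  | @br f b a m k h1 h2 ih1 ih2 =>
    intro α β e e' e'' hw ht
    rcases α with _ | ⟨g, α₁⟩
    · have h3 := D.br h1 h2
      rw [hw] at h3
      exact add_first hins h3 ht
    · rw [List.cons_append, List.cons.injEq] at hw
      obtain ⟨rfl, hw⟩ := hw
      -- the case where the partner of `f` is `e`
      have key : e = S.inv f → β = a → α₁ = b →
          S.D (S.src f) (f :: α₁ ++ e' :: e'' :: β) (m + k + 1) := by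
        rintro rfl rfl rfl
        have t1 : S.src e' = S.tgt f := Tri.src' ht
        have t2 : S.src e'' = S.tgt e' := Tri.mid' ht
        have t3 : S.tgt e'' = S.src f := by rw [Tri.tgt' ht, tgt_inv]
        have tt : S.Tri f (S.inv e'') (S.inv e') := by
          have q1 := S.tri_rot (S.tri_swap ht)
          simpa using q1
        have d1 : S.D (S.src e'') (S.inv e' :: (α₁ ++ [e'])) m := by
          have := D.br (S := S) (e := S.inv e') (b := α₁) (a := []) (m := m) (n := 0)
            (by rw [tgt_inv, t1]; exact h1) (D.nil _)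
          simp only [S.inv_inv, src_inv, Nat.add_zero] at this
          rw [t2]
          exact this
        have d2 : S.D (S.src f) (S.inv e'' :: ((S.inv e' :: (α₁ ++ [e'])) ++ e'' :: β)) (m + k) := by
          have := D.br (S := S) (e := S.inv e'') (b := S.inv e' :: (α₁ ++ [e'])) (a := β)
            (m := m) (n := k) (by rw [tgt_inv]; exact d1) (by rw [src_inv, t3]; exact h2)
          simp only [S.inv_inv, src_inv, t3] at this
          exact this
        have d3 := D.tri tt (a := α₁ ++ e' :: e'' :: β) (n := m + k) (by simpa using d2)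
        simpa using d3
      rcases List.append_eq_append_iff.mp hw with ⟨a', ha1, ha2⟩ | ⟨c', hc1, hc2⟩
      · -- `α₁ = b ++ a'`
        rcases a' with _ | ⟨g, a₁⟩
        · have e1 : α₁ = b := by simpa using ha1
          have e2 : S.inv f = e ∧ a = β := by simpa using ha2
          exact key e2.1.symm e2.2.symm e1
        · rw [List.cons_append, List.cons.injEq] at ha2
          obtain ⟨rfl, ha2⟩ := ha2
          subst ha1
          have h3 := D.br h1 (ih2 a₁ β e e' e'' ha2 ht)
          have e3 : m + (k + 1) = m + k + 1 := by omega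
          rw [e3] at h3
          simpa using h3
      · rcases c' with _ | ⟨g, c₁⟩
        · have e1 : b = α₁ := by simpa using hc1
          have e2 : e = S.inv f ∧ β = a := by simpa using hc2
          exact key e2.1 e2.2 e1.symm
        · rw [List.cons_append, List.cons.injEq] at hc2
          obtain ⟨rfl, hc2⟩ := hc2
          subst hc2
          have h3 := D.br (ih1 α₁ c₁ e e' e'' hc1 ht) h2
          have e3 : m + 1 + k = m + k + 1 := by omega
          rw [e3] at h3
          simpa using h3
  | @tri f f' f'' a k hf h ih =>
    intro α β e e' e'' hw ht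
    rcases α with _ | ⟨g, α₁⟩
    · have h3 := D.tri hf h
      rw [hw] at h3
      exact add_first hins h3 ht
    · rw [List.cons_append, List.cons.injEq] at hw
      obtain ⟨rfl, hw⟩ := hw
      subst hw
      have h3 := ih (f' :: f'' :: α₁) β e e' e'' rfl ht
      have h4 := D.tri hf (show S.D (S.src f) (f' :: f'' :: (α₁ ++ e' :: e'' :: β)) (k + 1) by
        simpa using h3)
      simpa using h4

/-- module ADD -/
theorem add (hins : InsStmt) : AddStmt := fun _ _ _ _ α β e e' e'' _ h ht =>
  add_aux hins h α β e e' e'' rfl ht

end Pool.Agent.ABA.B.H63
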