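import Pool.Agent.Helper52_ABA.LStmts

/-!
# Squad ABL, module INS: insertion of a diagram (MP_d857f1_al)
-/

set_option autoImplicit false

namespace Pool.Agent.ABA.B.H63

open Pool.Agent.ABA.B Pool.Agent.ABA.B.TG

variable {V E : Type} {S : TG V E}

theorem ins_aux {x : V} {w : List E} {m : ℕ} (h : S.D x w m) :
    ∀ (y : V) (α β γ : List E) (n : ℕ), w = α ++ β → S.IsP x α y → S.D y γ n →
      S.D x (α ++ γ ++ β) (m + n) := by
  induction h with
  | nil x =>
    intro y α β γ n hw hα hγ
    obtain ⟨rfl, rfl⟩ := List.append_eq_nil_iff.mp hw.symm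
    have hxy : x = y := hα
    subst hxy
    simpa using hγ
  | @br e b a m k h1 h2 ih1 ih2 =>
    intro y α β γ n hw hα hγ
    rcases α with _ | ⟨f, α₁⟩
    · have hxy : S.src e = y := hα
      subst hxy
      have hw' : β = e :: (b ++ S.inv e :: a) := hw.symm
      subst hw'
      have := D.append hγ (D.br h1 h2)
      rw [Nat.add_comm] at this
      simpa using this
    · rw [List.cons_append, List.cons.injEq] at hw
      obtain ⟨rfl, hw⟩ := hw
      have hα' : S.IsP (S.tgt e) α₁ y := hα.2
      rcases List.append_eq_append_iff.mp hw with ⟨a', ha1, ha2⟩ | ⟨c', hc1, hc2⟩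
      · -- `α₁ = b ++ a'`
        rcases a' with _ | ⟨g, a₁⟩
        · have e1 : α₁ = b := by simpa using ha1
          have e2 : β = S.inv e :: a := by simpa using ha2.symm
          subst e1 e2
          have hy : S.tgt e = y := IsP.eq h1.isP hα'
          subst hy
          have h3 := D.br (D.append h1 hγ) h2
          have e3 : m + n + k = m + k + n := by omega
          rw [e3] at h3
          simpa using h3
        · rw [List.cons_append, List.cons.injEq] at ha2
          obtain ⟨rfl, ha2⟩ := ha2
          subst ha1 ha2
          obtain ⟨z, hz1, hz2⟩ := isP_append.mp hα'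
          have hz3 : S.IsP (S.src e) a₁ y := by
            have := hz2.2
            rwa [tgt_inv] at this
          have h3 := D.br h1 (ih2 y a₁ β γ n rfl hz3 hγ)
          have e3 : m + (k + n) = m + k + n := by omega
          rw [e3] at h3
          simpa using h3
      · subst hc1 hc2
        have h3 := D.br (ih1 y α₁ c' γ n rfl hα' hγ) h2
        have e3 : m + n + k = m + k + n := by omega
        rw [e3] at h3
        simpa using h3
  | @tri e e' e'' a k ht h ih =>
    intro y α β γ n hw hα hγ
    rcases α with _ | ⟨f, α₁⟩
    · have hxy : S.src e = y := hα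
      subst hxy
      have hw' : β = e :: a := hw.symm
      subst hw'
      have := D.append hγ (D.tri ht h)
      rw [Nat.add_comm] at this
      simpa using this
    · rw [List.cons_append, List.cons.injEq] at hw
      obtain ⟨rfl, hw⟩ := hw
      subst hw
      have hα' : S.IsP (S.tgt e) α₁ y := hα.2
      have hp : S.IsP (S.src e) (e' :: e'' :: α₁) y :=
        ⟨Tri.src' ht, Tri.mid' ht, by rw [Tri.tgt' ht]; exact hα'⟩
      have h3 := ih y (e' :: e'' :: α₁) β γ n rfl hp hγ
      have h4 := D.tri ht (show S.D (S.src e) (e' :: e'' :: (α₁ ++ γ ++ β)) (k + n) by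
        simpa using h3)
      have e3 : k + n + 1 = k + 1 + n := by omega
      rw [e3] at h4
      simpa using h4

/-- module INS -/
theorem ins : InsStmt := fun _ _ _ _ y α β γ _ n h hα hγ => ins_aux h y α β γ n rfl hα hγ

end Pool.Agent.ABA.B.H63
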